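import Pool.Agent.N641.VB.Stm

set_option autoImplicit false

/-!
# Project VB, part TOP: the interval below an element
-/

namespace Pool.Agent.N385.VB

open Pool.Agent.N641.VB

/-- the interval below `a` -/
abbrev Bel {A : Type} [BooleanAlgebra A] (a : A) : Type := {b : A // b ≤ a}

/-- the Boolean algebra below an element -/
noncomputable abbrev belBA {A : Type} [BooleanAlgebra A] (a : A) : BooleanAlgebra (Bel a) where
  le b c := b.1 ≤ c.1
  lt b c := b.1 < c.1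
  le_refl b := le_refl b.1
  le_trans b c d := le_trans (a := b.1)
  lt_iff_le_not_ge b c := lt_iff_le_not_ge (a := b.1) (b := c.1)
  le_antisymm b c h1 h2 := Subtype.ext (le_antisymm h1 h2)
  sup b c := ⟨b.1 ⊔ c.1, sup_le b.2 c.2⟩
  le_sup_left b c := (le_sup_left : b.1 ≤ b.1 ⊔ c.1)
  le_sup_right b c := (le_sup_right : c.1 ≤ b.1 ⊔ c.1)
  sup_le b c d h1 h2 := by
    change b.1 ⊔ c.1 ≤ d.1
    exact _root_.sup_le h1 h2
  inf b c := ⟨b.1 ⊓ c.1, le_trans inf_le_left b.2⟩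
  inf_le_left b c := (inf_le_left : b.1 ⊓ c.1 ≤ b.1)
  inf_le_right b c := (inf_le_right : b.1 ⊓ c.1 ≤ c.1)
  le_inf b c d h1 h2 := by
    change b.1 ≤ c.1 ⊓ d.1
    exact _root_.le_inf h1 h2
  le_sup_inf b c d := (le_sup_inf : (b.1 ⊔ c.1) ⊓ (b.1 ⊔ d.1) ≤ b.1 ⊔ c.1 ⊓ d.1)
  top := ⟨a, le_rfl⟩
  bot := ⟨⊥, bot_le⟩
  le_top b := b.2
  bot_le b := (bot_le : ⊥ ≤ b.1)
  compl b := ⟨a \ b.1, sdiff_le⟩
  inf_compl_le_bot b := by
    change b.1 ⊓ (a \ b.1) ≤ ⊥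
    rw [inf_sdiff_self_right]
  top_le_sup_compl b := by
    change a ≤ b.1 ⊔ (a \ b.1)
    rw [sup_sdiff_self_right]
    exact le_sup_right

theorem TOP : S_TOP := by
  intro M _ A _ mu a hm
  letI : BooleanAlgebra (Bel a) := belBA a
  refine ⟨Bel a, belBA a, Subtype.val, fun b c => Iff.rfl, fun c hc => ⟨⟨c, hc⟩, rfl⟩, rfl, ?_⟩
  refine ⟨hm.bot, ?_⟩
  intro b c h
  have h1 : Disjoint b.1 c.1 := by
    rw [disjoint_iff_inf_le]
    have h2 : b ⊓ c ≤ ⊥ := disjoint_iff_inf_le.1 h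
    exact h2
  exact hm.sup b.1 c.1 h1

end Pool.Agent.N385.VB
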